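import Pool.Agent.R451.MinOrD

set_option autoImplicit false

namespace Pool.Agent.Results.MP_c69494_co.NoMinimalOrientation

open Pool.Agent.R451.MinOr

/-- For every `k ≥ 4` (in particular for every `k ≥ 6`) the graph `G_k` has no minimal
orientation: no orientation of `G_k` contains exactly one directed path on `k` vertices. -/
theorem result (k : ℕ) (hk : 4 ≤ k) (D : Vt k → Vt k → Prop) (hD : IsOrientation (GK k) D) :
    ¬ OnePath D k :=
  main hk hD

end Pool.Agent.Results.MP_c69494_co.NoMinimalOrientation
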